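import Pool.Agent.Lib_helper4.LDK.Dual

/-!
# AAN, block (G): the duality clause

If `N G(A₁,D₁) G(A₂,D₂) ≤ κ² G(A₁⊗A₂, D₁⊗D₂)` for all PSD pairs (`κ = 2^(α-1) - 1`), then
`G₁ G₂ - (1 - N/κ) (κ t₁ - G₁) (κ t₂ - G₂) / (κ + 1) ≤ κ G₁₂`, `tᵢ = Tr Aᵢ^α`.
-/

set_option autoImplicit false

open scoped BigOperators ComplexOrder Kronecker MatrixOrder Topology
open MeasureTheory Set Matrix Filter

namespace Pool.Agent.Lib_helper41.AAN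

open Pool.Agent.RC
open Pool.Agent.LDK

/-- the inequality with the constant `N / κ` for all pairs of PSD pairs -/
def AllPsd (α N : ℝ) : Prop :=
  ∀ (ι κ : Type) [Fintype ι] [DecidableEq ι] [Fintype κ] [DecidableEq κ]
    (A₁ D₁ : Matrix ι ι ℂ) (A₂ D₂ : Matrix κ κ ℂ), IsPsdPair A₁ D₁ → IsPsdPair A₂ D₂ →
    N * (G α A₁ D₁ * G α A₂ D₂) ≤ (2 ^ (α - 1) - 1) ^ 2 * G α (A₁ ⊗ₖ A₂) (D₁ ⊗ₖ D₂)

variable {ι κ : Type} [Fintype ι] [DecidableEq ι] [Fintype κ] [DecidableEq κ]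

/-- `G` of the dual pair -/
theorem G_dual' {α : ℝ} (hα : 0 < α) {A D Y Z : Matrix ι ι ℂ} (hA : A.PosSemidef)
    (hY : A - D = Yᴴ * Y) (hZ : A + D = Zᴴ * Z) :
    G α (DUAL.Ad Y Z) (DUAL.Dd Y Z) =
      2 * ((2 ^ (α - 1) - 1) * trF (fun x => x ^ α) A - G α A D) := by
  rw [DUAL.G_dual hα hA hY hZ]
  have h2 : (2 : ℝ) ^ α = 2 * 2 ^ (α - 1) := by
    rw [Real.rpow_sub_one (by norm_num)]; ring
  unfold DUAL.tp G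
  rw [h2]
  ring

theorem dual_clause {α N : ℝ} (hα : 1 < α) (H : AllPsd α N)
    {A₁ D₁ : Matrix ι ι ℂ} {A₂ D₂ : Matrix κ κ ℂ} (h₁ : IsPsdPair A₁ D₁)
    (h₂ : IsPsdPair A₂ D₂) :
    G α A₁ D₁ * G α A₂ D₂ - (1 - N / (2 ^ (α - 1) - 1)) / 2 ^ (α - 1) *
      (((2 ^ (α - 1) - 1) * trF (fun x => x ^ α) A₁ - G α A₁ D₁) *
        ((2 ^ (α - 1) - 1) * trF (fun x => x ^ α) A₂ - G α A₂ D₂)) ≤
      (2 ^ (α - 1) - 1) * G α (A₁ ⊗ₖ A₂) (D₁ ⊗ₖ D₂) := by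
  have hα0 : 0 < α := by linarith
  obtain ⟨Y₁, Z₁, hY₁, hZ₁⟩ := DUAL.exists_YZ h₁
  obtain ⟨Y₂, Z₂, hY₂, hZ₂⟩ := DUAL.exists_YZ h₂
  have e := DUAL.duality hα0 h₁ h₂ hY₁ hZ₁ hY₂ hZ₂
  have h := H _ _ _ _ _ _ (DUAL.isPsdPair_dual Y₁ Z₁) (DUAL.isPsdPair_dual Y₂ Z₂)
  have g1 := G_dual' hα0 h₁.pos hY₁ hZ₁
  have g2 := G_dual' hα0 h₂.pos hY₂ hZ₂
  have hq : (1 : ℝ) < 2 ^ (α - 1) := Real.one_lt_rpow (by norm_num) (by linarith)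
  obtain ⟨q, hqd⟩ : ∃ q : ℝ, q = 2 ^ (α - 1) := ⟨_, rfl⟩
  rw [← hqd] at e h g1 g2 hq ⊢
  generalize G α (DUAL.Ad Y₁ Z₁ ⊗ₖ DUAL.Ad Y₂ Z₂) (DUAL.Dd Y₁ Z₁ ⊗ₖ DUAL.Dd Y₂ Z₂) = g at e h
  generalize G α (A₁ ⊗ₖ A₂) (D₁ ⊗ₖ D₂) = G12 at e ⊢
  rw [g1, g2] at e h
  generalize (q - 1) * trF (fun x => x ^ α) A₁ - G α A₁ D₁ = u at e h ⊢
  generalize (q - 1) * trF (fun x => x ^ α) A₂ - G α A₂ D₂ = v at e h ⊢
  generalize G α A₁ D₁ * G α A₂ D₂ = m at e ⊢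
  have hk : 0 < q - 1 := by linarith
  -- `h : N (2u · 2v) ≤ κ² g`, `e : κ g - 2u · 2v = 4 q (κ G12 - m)`
  have h1 : N / (q - 1) * (4 * (u * v)) ≤ (q - 1) * g := by
    rw [div_mul_eq_mul_div, div_le_iff₀ hk]
    nlinarith [h]
  have h2 : -((1 - N / (q - 1)) * (4 * (u * v))) ≤ 4 * q * ((q - 1) * G12 - m) := by
    nlinarith [h1, e]
  have hq0 : 0 < q := by linarith
  have h3 : (1 - N / (q - 1)) / q * (u * v) * q = (1 - N / (q - 1)) * (u * v) := by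
    field_simp
  by_contra hcon
  push Not at hcon
  have h4 : ((q - 1) * G12) * q < (m - (1 - N / (q - 1)) / q * (u * v)) * q :=
    mul_lt_mul_of_pos_right hcon hq0
  have h5 : (m - (1 - N / (q - 1)) / q * (u * v)) * q = m * q - (1 - N / (q - 1)) * (u * v) := by
    rw [sub_mul, h3]
  rw [h5] at h4
  nlinarith [h2, h4]

/-- the same in terms of `K = δ (1 + G)`, `δ = 2^(1-α)`, when `Tr Aᵢ^α = 1` -/
theorem dual_clause_K {α N G₁ G₂ G₁₂ K₁ K₂ K₁₂ : ℝ} (hα : 1 < α)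
    (h : G₁ * G₂ - (1 - N / (2 ^ (α - 1) - 1)) / 2 ^ (α - 1) *
      (((2 ^ (α - 1) - 1) - G₁) * ((2 ^ (α - 1) - 1) - G₂)) ≤ (2 ^ (α - 1) - 1) * G₁₂)
    (h1 : K₁ = 2 ^ (1 - α) * (1 + G₁)) (h2 : K₂ = 2 ^ (1 - α) * (1 + G₂))
    (h12 : K₁₂ = 2 ^ (1 - α) * (1 + G₁₂)) :
    (K₁ - 2 ^ (1 - α)) * (K₂ - 2 ^ (1 - α)) -
      2 ^ (1 - α) * (1 - N / (2 ^ (α - 1) - 1)) * ((1 - K₁) * (1 - K₂)) ≤
    (1 - 2 ^ (1 - α)) * (K₁₂ - 2 ^ (1 - α)) := by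
  have hd : (2 : ℝ) ^ (1 - α) = 1 / 2 ^ (α - 1) := by
    rw [one_div, ← Real.rpow_neg (by norm_num)]
    congr 1
    ring
  have hq : (1 : ℝ) < 2 ^ (α - 1) := Real.one_lt_rpow (by norm_num) (by linarith)
  rw [hd] at h1 h2 h12 ⊢
  generalize (2 : ℝ) ^ (α - 1) = q at *
  have hq0 : 0 < q := by linarith
  obtain ⟨r, hr⟩ : ∃ r, r = 1 - N / (q - 1) := ⟨_, rfl⟩
  rw [← hr] at h ⊢
  subst h1 h2 h12
  have e1 : (1 / q * (1 + G₁) - 1 / q) * (1 / q * (1 + G₂) - 1 / q) -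
      1 / q * r * ((1 - 1 / q * (1 + G₁)) * (1 - 1 / q * (1 + G₂))) =
      (G₁ * G₂ - r / q * (((q - 1) - G₁) * ((q - 1) - G₂))) / q ^ 2 := by
    field_simp
    ring
  have e2 : (1 - 1 / q) * (1 / q * (1 + G₁₂) - 1 / q) = ((q - 1) * G₁₂) / q ^ 2 := by
    field_simp
    ring
  rw [e1, e2]
  exact div_le_div_of_nonneg_right h (by positivity)

end Pool.Agent.Lib_helper41.AAN
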