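import Pool.Agent.Lib_helper63.G56.Conj
import Pool.Agent.Lib_helper25.G56.M1K
import Pool.Agent.Lib_helper30.TN.NoiseC
import Pool.Agent.Lib_helper4.AAN.Final

/-!
# AAN, block (D): the inequality for all strict pairs with `|D| ≤ c A`, every real `α > 4`
-/

set_option autoImplicit false

open scoped BigOperators ComplexOrder Kronecker MatrixOrder
open MeasureTheory Set Matrix

namespace Pool.Agent.Lib_helper41.AAN

open Pool.Agent.RC Pool.Agent.RC.G56 Pool.Agent.RC.SER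
open Pool.Agent.Lib_helper4.AAN Pool.Agent.Lib_helper11.AAN

/-- unitary reduction to diagonal `A` -/
theorem red {ι : Type} [Fintype ι] [DecidableEq ι] (A D : Matrix ι ι ℂ) (hs : (A - D).PosDef)
    (ha : (A + D).PosDef) : ∃ (U : Matrix ι ι ℂ) (a : ι → ℝ) (D' : Matrix ι ι ℂ), Uᴴ * U = 1 ∧
      A = U * dg a * Uᴴ ∧ D = U * D' * Uᴴ ∧ SPair (dg a) D' ∧
      ∀ c : ℝ, (((c : ℂ) • A - D).PosSemidef → ((c : ℂ) • dg a - D').PosSemidef) ∧
        (((c : ℂ) • A + D).PosSemidef → ((c : ℂ) • dg a + D').PosSemidef) := by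
  have h2A : (A - D) + (A + D) = (2 : ℝ) • A := by
    rw [two_smul]
    abel
  have hA2 : ((2 : ℝ) • A).PosDef := h2A ▸ hs.add ha
  have hA : A.PosDef := by
    have e : A = (2⁻¹ : ℝ) • ((2 : ℝ) • A) := by
      rw [smul_smul, inv_mul_cancel₀ (by norm_num), one_smul]
    rw [e]
    exact hA2.smul (by norm_num)
  obtain ⟨U, u1, u2, u3⟩ := exists_diag_eig hA.1
  have eA : A = U * dg hA.1.eigenvalues * Uᴴ := by
    unfold dg
    rw [← u3]
    calc A = (U * Uᴴ) * A * (U * Uᴴ) := by rw [u1]; simp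
      _ = _ := by noncomm_ring
  have eD : D = U * (Uᴴ * D * U) * Uᴴ := by
    calc D = (U * Uᴴ) * D * (U * Uᴴ) := by rw [u1]; simp
      _ = _ := by noncomm_ring
  have inj : ∀ X : Matrix ι ι ℂ, X.PosDef → (Uᴴ * X * U).PosDef := by
    intro X hX
    have hinj : Function.Injective U.mulVec := by
      intro x y hxy
      have h5 := congrArg (Uᴴ.mulVec) hxy
      simpa [Matrix.mulVec_mulVec, u2] using h5
    exact hX.conjTranspose_mul_mul_same hinj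
  have e0 : dg hA.1.eigenvalues = Uᴴ * A * U := by
    unfold dg
    rw [u3]
  refine ⟨U, hA.1.eigenvalues, Uᴴ * D * U, u2, eA, eD, ⟨?_, ?_, ?_⟩, fun c => ⟨fun h => ?_,
    fun h => ?_⟩⟩
  · rw [e0]
    exact inj A hA
  · have : dg hA.1.eigenvalues - Uᴴ * D * U = Uᴴ * (A - D) * U := by
      rw [e0]
      noncomm_ring
    rw [this]
    exact inj _ hs
  · have : dg hA.1.eigenvalues + Uᴴ * D * U = Uᴴ * (A + D) * U := by
      rw [e0]
      noncomm_ring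
    rw [this]
    exact inj _ ha
  · have : (c : ℂ) • dg hA.1.eigenvalues - Uᴴ * D * U = Uᴴ * ((c : ℂ) • A - D) * U := by
      rw [e0, Matrix.mul_sub, Matrix.sub_mul, Matrix.mul_smul, Matrix.smul_mul]
    rw [this]
    exact h.conjTranspose_mul_mul_same U
  · have : (c : ℂ) • dg hA.1.eigenvalues + Uᴴ * D * U = Uᴴ * ((c : ℂ) • A + D) * U := by
      rw [e0, Matrix.mul_add, Matrix.add_mul, Matrix.mul_smul, Matrix.smul_mul]
    rw [this]
    exact h.conjTranspose_mul_mul_same U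

theorem dg_pos' {ι : Type} [DecidableEq ι] {a : ι → ℝ} (h : (dg a).PosDef) (i : ι) :
    0 < a i := by
  have h1 := (Matrix.posDef_diagonal_iff).1 h i
  exact_mod_cast h1

theorem dg_kron' {ι κ : Type} [DecidableEq ι] [DecidableEq κ] (a : ι → ℝ) (b : κ → ℝ) :
    dg a ⊗ₖ dg b = dg (fun x : ι × κ => a x.1 * b x.2) := by
  unfold dg
  rw [diagonal_kronecker_diagonal]
  congr 1
  ext x
  push_cast
  rfl

theorem hk_nonneg' {p a b : ℝ} (ha : 0 < a) (hb : 0 < b) : 0 ≤ hk p a b := by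
  unfold hk
  refine intervalIntegral.integral_nonneg zero_le_one fun t ht => Real.rpow_nonneg ?_ _
  have h1 : 0 ≤ t * a := mul_nonneg ht.1 ha.le
  have h2 : 0 ≤ (1 - t) * b := mul_nonneg (by linarith [ht.2]) hb.le
  linarith

variable {ι κ : Type} [Fintype ι] [DecidableEq ι] [Fintype κ] [DecidableEq κ]

/-- the inequality for strict pairs with diagonal `A` -/
theorem strictN_dg {α c₁ c₂ : ℝ} (hα : 4 < α) (h0 : 0 ≤ c₁) (h1 : c₁ ≤ 1) (k0 : 0 ≤ c₂)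
    (k1 : c₂ ≤ 1) {a : ι → ℝ} {D₁ : Matrix ι ι ℂ} {b : κ → ℝ} {D₂ : Matrix κ κ ℂ}
    (h₁ : SPair (dg a) D₁) (h₁m : ((c₁ : ℂ) • dg a - D₁).PosSemidef)
    (h₁p : ((c₁ : ℂ) • dg a + D₁).PosSemidef)
    (h₂ : SPair (dg b) D₂) (h₂m : ((c₂ : ℂ) • dg b - D₂).PosSemidef)
    (h₂p : ((c₂ : ℂ) • dg b + D₂).PosSemidef) :
    nn α * (G α (dg a) D₁ * G α (dg b) D₂) ≤
      hh α c₁ * hh α c₂ * G α (dg a ⊗ₖ dg b) (D₁ ⊗ₖ D₂) := by
  have ha := fun i => dg_pos' h₁.pos i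
  have hb := fun k => dg_pos' h₂.pos k
  have hab : ∀ x : ι × κ, 0 < a x.1 * b x.2 := fun x => mul_pos (ha _) (hb _)
  have hVW := h₁.isPair.kron h₂.isPair
  have hN : 0 < nn α := nn_pos (by linarith)
  have g1 := Pool.Agent.Lib_helper30.TN.noiseC hα ha h0 h1 h₁m h₁p
  have g2 := Pool.Agent.Lib_helper30.TN.noiseC hα hb k0 k1 h₂m h₂p
  have f1 := (Pool.Agent.Lib_helper30.TN.fourA hα ha h₁.isPair).1
  have f2 := (Pool.Agent.Lib_helper30.TN.fourA hα hb h₂.isPair).1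
  have hM := M1K.m1_kron (show 3 ≤ α by linarith) ha hb D₁ h₂.isPair.hermD
  rw [dg_kron'] at hVW ⊢
  have f12 := (Pool.Agent.Lib_helper30.TN.fourA hα hab hVW).1
  have m1 : 0 ≤ ∑ i, ∑ j, ‖D₁ i j‖ ^ 2 * hk α (a i) (a j) :=
    Finset.sum_nonneg fun i _ => Finset.sum_nonneg fun j _ =>
      mul_nonneg (by positivity) (hk_nonneg' (ha i) (ha j))
  have m2 : 0 ≤ ∑ i, ∑ j, ‖D₂ i j‖ ^ 2 * hk α (b i) (b j) :=
    Finset.sum_nonneg fun i _ => Finset.sum_nonneg fun j _ =>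
      mul_nonneg (by positivity) (hk_nonneg' (hb i) (hb j))
  have e1 : hh α c₁ = α * (α - 1) / 2 + c₁ * ((2 ^ (α - 1) - 1) - α * (α - 1) / 2) := rfl
  have e2 : hh α c₂ = α * (α - 1) / 2 + c₂ * ((2 ^ (α - 1) - 1) - α * (α - 1) / 2) := rfl
  have e3 : α * (α - 1) / 2 = nn α := rfl
  have p1 : 0 < hh α c₁ := hh_pos (by linarith) h0 h1
  have p2 : 0 < hh α c₂ := hh_pos (by linarith) k0 k1
  rw [← e1] at g1
  rw [← e2] at g2
  rw [e3] at f1 f2 f12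
  generalize (∑ i, ∑ j, ‖D₁ i j‖ ^ 2 * hk α (a i) (a j)) = m at *
  generalize (∑ i, ∑ j, ‖D₂ i j‖ ^ 2 * hk α (b i) (b j)) = m' at *
  generalize (∑ x : ι × κ, ∑ y : ι × κ, ‖(D₁ ⊗ₖ D₂) x y‖ ^ 2 *
    hk α (a x.1 * b x.2) (a y.1 * b y.2)) = M at *
  generalize G α (dg a) D₁ = G1 at *
  generalize G α (dg b) D₂ = G2 at *
  generalize G α (dg fun x : ι × κ => a x.1 * b x.2) (D₁ ⊗ₖ D₂) = G12 at *
  have q2 : 0 ≤ G2 := (mul_nonneg hN.le m2).trans f2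
  have s1 : G1 * G2 ≤ (hh α c₁ * m) * (hh α c₂ * m') :=
    mul_le_mul g1 g2 q2 (mul_nonneg p1.le m1)
  have hpos : 0 ≤ hh α c₁ * hh α c₂ := (mul_pos p1 p2).le
  calc nn α * (G1 * G2) ≤ nn α * ((hh α c₁ * m) * (hh α c₂ * m')) :=
        mul_le_mul_of_nonneg_left s1 hN.le
    _ = hh α c₁ * hh α c₂ * (nn α * (m * m')) := by ring
    _ ≤ hh α c₁ * hh α c₂ * (nn α * M) :=
        mul_le_mul_of_nonneg_left (mul_le_mul_of_nonneg_left hM hN.le) hpos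
    _ ≤ hh α c₁ * hh α c₂ * G12 := mul_le_mul_of_nonneg_left f12 hpos

/-- **Block (D).** The inequality for all strict pairs -/
theorem strictN_main {α c₁ c₂ : ℝ} (hα : 4 < α) (h0 : 0 ≤ c₁) (h1 : c₁ ≤ 1) (k0 : 0 ≤ c₂)
    (k1 : c₂ ≤ 1) : StrictN α c₁ c₂ (nn α) (hh α c₁ * hh α c₂) := by
  intro ι κ _ _ _ _ A₁ D₁ A₂ D₂ a1 a2 a3 a4 b1 b2 b3 b4
  obtain ⟨U, a, D₁', hU, rfl, rfl, hp1, n1⟩ := red A₁ D₁ a1 a2
  obtain ⟨V, b, D₂', hV, rfl, rfl, hp2, n2⟩ := red A₂ D₂ b1 b2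
  rw [kron_conj, kron_conj, G_conj α hU hp1.pos.1 hp1.isPair.hermD,
    G_conj α hV hp2.pos.1 hp2.isPair.hermD,
    G_conj α (kron_unitary hU hV) (hp1.isPair.kron hp2.isPair).hermA
      (hp1.isPair.kron hp2.isPair).hermD]
  exact strictN_dg hα h0 h1 k0 k1 hp1 ((n1 c₁).1 a3) ((n1 c₁).2 a4) hp2 ((n2 c₂).1 b3)
    ((n2 c₂).2 b4)

end Pool.Agent.Lib_helper41.AAN
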