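import Pool.Agent.Lib_helper41.AAN.Dual
import Pool.Agent.Lib_helper4.AAN.Final

/-!
# AAN, block (G): the duality clause for all states

For every pair of classical-quantum states, with `K = Kof α H`, `δ = 2^(1-α)`,
`(K₁ - δ) (K₂ - δ) - δ (1 - N/κ) (1 - K₁) (1 - K₂) ≤ (1 - δ) (K₁₂ - δ)`.
-/

set_option autoImplicit false

open scoped BigOperators ComplexOrder Kronecker MatrixOrder Topology
open MeasureTheory Set Matrix Filter

namespace Pool.Agent.Lib_helper41.AAN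

open Pool.Agent.RC Pool.Agent.Lib_helper98.Renyi
open Pool.Agent.Lib_helper4.AAN Pool.Agent.Lib_helper11.AAN

/-- all PSD pairs, from strict pairs (`c₁ = c₂ = 1`) -/
theorem allPsd_of_strict {α N : ℝ} (h0 : 0 < α)
    (hS : StrictN α 1 1 N (hh α 1 * hh α 1)) : AllPsd α N := by
  intro ι κ _ _ _ _ A₁ D₁ A₂ D₂ h₁ h₂
  have h := psd_of_strictN h0 zero_le_one zero_le_one hS h₁ (by simpa using h₁.sub)
    (by simpa using h₁.add) h₂ (by simpa using h₂.sub) (by simpa using h₂.add)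
  rw [hh_one, kp] at h
  calc N * (G α A₁ D₁ * G α A₂ D₂) ≤ _ := h
    _ = _ := by ring

variable {ι κ : Type} [Fintype ι] [DecidableEq ι] [Fintype κ] [DecidableEq κ]

/-- **Duality clause for states.** -/
theorem states_dual {α N : ℝ} (hα : 1 < α) (hA : AllPsd α N)
    {σ₁ : Fin 2 → Matrix ι ι ℂ} {σ₂ : Fin 2 → Matrix κ κ ℂ}
    (h₁ : ∀ x, IsDensity (σ₁ x)) (h₂ : ∀ x, IsDensity (σ₂ x)) :
    (Kof α (condH α (cqState σ₁)) - 2 ^ (1 - α)) *
        (Kof α (condH α (cqState σ₂)) - 2 ^ (1 - α)) -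
      2 ^ (1 - α) * (1 - N / (2 ^ (α - 1) - 1)) *
        ((1 - Kof α (condH α (cqState σ₁))) * (1 - Kof α (condH α (cqState σ₂)))) ≤
    (1 - 2 ^ (1 - α)) * (Kof α (Hsum α σ₁ σ₂) - 2 ^ (1 - α)) := by
  have h0 : 0 < α := by linarith
  have p₁ := psdPair_state h₁ h0
  have p₂ := psdPair_state h₂ h0
  have t₁ : Pool.Agent.RC.trF (fun x => x ^ α) (Aop α σ₁) = 1 := by
    rw [trF_rpow_eq_trPow h0 p₁.pos.1, trPow_Aop h₁ h0]
  have t₂ : Pool.Agent.RC.trF (fun x => x ^ α) (Aop α σ₂) = 1 := by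
    rw [trF_rpow_eq_trPow h0 p₂.pos.1, trPow_Aop h₂ h0]
  have h := dual_clause hα hA p₁ p₂
  rw [t₁, t₂, mul_one] at h
  refine dual_clause_K hα h ?_ ?_ ?_
  · rw [Kof_condH h₁ h0 hα.ne', p₁.Gfun_eq h0]
  · rw [Kof_condH h₂ h0 hα.ne', p₂.Gfun_eq h0]
  · rw [Kof_Hsum h₁ h₂ h0 hα.ne', (p₁.kron p₂).Gfun_eq h0]

/-- the same, from the inequality for strict pairs with the constants of the theorem -/
theorem states_dual_of_strict {α : ℝ} (hα : 1 < α)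
    (hS : StrictN α 1 1 (nn α) (hh α 1 * hh α 1))
    {σ₁ : Fin 2 → Matrix ι ι ℂ} {σ₂ : Fin 2 → Matrix κ κ ℂ}
    (h₁ : ∀ x, IsDensity (σ₁ x)) (h₂ : ∀ x, IsDensity (σ₂ x)) :
    (Kof α (condH α (cqState σ₁)) - 2 ^ (1 - α)) *
        (Kof α (condH α (cqState σ₂)) - 2 ^ (1 - α)) -
      2 ^ (1 - α) * (1 - nn α / kp α) *
        ((1 - Kof α (condH α (cqState σ₁))) * (1 - Kof α (condH α (cqState σ₂)))) ≤
    (1 - 2 ^ (1 - α)) * (Kof α (Hsum α σ₁ σ₂) - 2 ^ (1 - α)) :=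
  states_dual hα (allPsd_of_strict (by linarith) hS) h₁ h₂

end Pool.Agent.Lib_helper41.AAN
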